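import Pool.Agent.H61.NVK.TargetsE2

/-!
# Row E_BAV of `nvk_modules` (helper73): the average of the central value over `b`
-/

set_option autoImplicit false

open MeasureTheory Set Filter NumberField NumberField.InfinitePlace Pool.Agent.H65.CM4
  Pool.Agent.H61.CM4 Pool.Agent.H61.NVK
open scoped Real nonZeroDivisors

namespace Pool.Agent.H73.NVE_BAV

theorem card_pl {k : Type} [Field k] [NumberField k] [IsTotallyReal k] :
    Fintype.card (Pl k) = dg k := by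
  unfold dg
  rw [← InfinitePlace.card_add_two_mul_card_eq_rank k,
    InfinitePlace.card_eq_nrRealPlaces_add_nrComplexPlaces,
    IsTotallyReal.nrComplexPlaces_eq_zero]

theorem dk_pos {k : Type} [Field k] [NumberField k] : (0 : ℝ) < dk k := by
  have : discr k ≠ 0 := discr_ne_zero k
  have h : 0 < dk k := Int.natAbs_pos.mpr this
  exact_mod_cast h

theorem dg_pos {k : Type} [Field k] [NumberField k] : 0 < dg k := Module.finrank_pos

theorem sqrt_le73 (t : ℝ) (ht : 1 ≤ t) : Real.sqrt t ≤ t := by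
  have h1 : Real.sqrt t ≤ Real.sqrt (t ^ 2) := Real.sqrt_le_sqrt (by nlinarith)
  rwa [Real.sqrt_sq (by linarith)] at h1

/-- the index -/
theorem ix_le73 (i a b M X : ℝ) (hi : i = a ^ 2 * b) (ha : 1 ≤ a) (hb : 1 ≤ b) (haM : a ≤ M)
    (hbX : b ≤ X ^ 2) : Real.sqrt i ≤ M ^ 2 * X ^ 2 := by
  have h0 : 1 ≤ a ^ 2 := one_le_pow₀ ha
  have h2 : 1 ≤ i := by
    rw [hi]
    nlinarith
  calc Real.sqrt i ≤ i := sqrt_le73 i h2
    _ = a ^ 2 * b := hi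
    _ ≤ M ^ 2 * X ^ 2 := mul_le_mul (pow_le_pow_left₀ (by linarith) haM 2) hbX
        (by linarith) (by positivity)

/-- the product of the square roots -/
theorem sd_eq {k : Type} [Field k] [NumberField k] (D : Pl k → ℝ) (hD : ∀ v, 0 ≤ D v) :
    sD D = ∏ v, Real.sqrt (D v) := by
  unfold sD
  rw [Real.sqrt_eq_rpow, ← Real.finsetProd_rpow _ _ (fun v _ => hD v)]
  refine Finset.prod_congr rfl fun v _ => ?_
  rw [Real.sqrt_eq_rpow]

/-- lower bound of `sD` -/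
theorem sd_ge {k : Type} [Field k] [NumberField k] [IsTotallyReal k] (D : Pl k → ℝ) (η Y : ℝ)
    (hη : 0 < η) (hY : 1 ≤ Y) (hD : ∀ v, η * Y ≤ D v) :
    Real.sqrt η ^ dg k * Y ^ ((dg k : ℝ) / 2) ≤ sD D := by
  have hY0 : 0 ≤ Y := by linarith
  rw [sd_eq D (fun v => (mul_nonneg hη.le hY0).trans (hD v))]
  have h1 : Real.sqrt η ^ dg k * Y ^ ((dg k : ℝ) / 2) = ∏ _v : Pl k, Real.sqrt (η * Y) := by
    rw [Finset.prod_const, Finset.card_univ, card_pl, Real.sqrt_mul hη.le, mul_pow]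
    congr 1
    rw [Real.sqrt_eq_rpow, ← Real.rpow_natCast, ← Real.rpow_mul hY0]
    congr 1
    ring
  rw [h1]
  exact Finset.prod_le_prod (fun v _ => Real.sqrt_nonneg _) fun v _ => Real.sqrt_le_sqrt (hD v)

/-- upper bound of the imaginary parts -/
theorem prod_y_le {k : Type} [Field k] [NumberField k] [IsTotallyReal k] (D : Pl k → ℝ)
    (η Y X : ℝ) (hη : 0 < η) (hY : 1 ≤ Y) (hX : Y ≤ X) (hD : ∀ v, 0 ≤ D v ∧ D v ≤ Y / η) :
    ∏ v, (Real.sqrt (D v) / 2) ≤ ((1 + 1 / η) * X) ^ dg k := by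
  have h1 : ∏ _v : Pl k, ((1 + 1 / η) * X) = ((1 + 1 / η) * X) ^ dg k := by
    rw [Finset.prod_const, Finset.card_univ, card_pl]
  rw [← h1]
  refine Finset.prod_le_prod (fun v _ => by positivity) fun v _ => ?_
  have h2 : Real.sqrt (D v) ≤ 1 + D v := by
    rw [Real.sqrt_le_left (by linarith [(hD v).1])]
    nlinarith [(hD v).1]
  have h3 : Y / η ≤ X / η := div_le_div_of_nonneg_right hX hη.le
  have h4 : (1 + 1 / η) * X = X + X / η := by ring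
  have h5 := Real.sqrt_nonneg (D v)
  rw [h4]
  linarith [(hD v).2]

/-- the exponential factor -/
theorem ee_le {k : Type} [Field k] [NumberField k] (s s0 W N : ℝ) (hN : 0 < N) (hs0 : 0 ≤ s0)
    (hW : 0 ≤ W) (h : s0 * W ≤ s) :
    EE (k := k) s N ≤ Real.exp (-(π * dg k * (s0 / dk k) ^ (1 / (dg k : ℝ)) *
      (W / N) ^ (1 / (dg k : ℝ)))) := by
  unfold EE
  have hd := dk_pos (k := k)
  rw [Real.exp_le_exp, neg_le_neg_iff, mul_assoc (π * dg k)]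
  refine mul_le_mul_of_nonneg_left ?_ (by positivity)
  rw [← Real.mul_rpow (by positivity) (by positivity)]
  refine Real.rpow_le_rpow (by positivity) ?_ (by positivity)
  have h1 : s0 / dk k * (W / N) = (s0 * W) / (N * dk k) := by
    field_simp
  rw [h1]
  exact div_le_div_of_nonneg_right h (by positivity)

/-- the numbers -/
theorem bav_num (m j : ℕ) (K sK T H M C1 X r e : ℝ) (s b : ℝ) (hX : 1 ≤ X) (hr : 0 < r)
    (hK : K ≤ X / r) (hT : 0 ≤ T) (hH : 0 ≤ H) (hC : 0 ≤ C1)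
    (he : 0 ≤ e) (hs0 : 0 ≤ s) (hs : s ≤ M ^ 2 * X ^ 2) (hb0 : 0 ≤ b)
    (hb : b ≤ sK * X ^ (m + 2)) :
    K * (T * (H * (s * (C1 * b ^ j * e)))) ≤
      (T * H * M ^ 2 * C1 * sK ^ j / r) * X ^ (3 + (m + 2) * j) * e := by
  have hX0 : 0 ≤ X := by linarith
  have h1 : b ^ j ≤ sK ^ j * X ^ ((m + 2) * j) := by
    calc b ^ j ≤ (sK * X ^ (m + 2)) ^ j := pow_le_pow_left₀ hb0 hb j
      _ = sK ^ j * X ^ ((m + 2) * j) := by rw [mul_pow, ← pow_mul]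
  calc K * (T * (H * (s * (C1 * b ^ j * e))))
      ≤ (X / r) * (T * (H * ((M ^ 2 * X ^ 2) * (C1 * (sK ^ j * X ^ ((m + 2) * j)) * e)))) := by
        gcongr
    _ = (T * H * M ^ 2 * C1 * sK ^ j / r) * X ^ (3 + (m + 2) * j) * e := by
        rw [pow_add]
        field_simp

theorem pf_BAV (hZFE : T_ZFE) (hZTH : T_ZTH) (hBAI : T_BAI) (hCTE : T_CTE) (hLIX : T_LIX) :
    T_BAV := by
  intro k _ _ _ η hη
  classical
  obtain ⟨C1, j1, hC1, hB⟩ := hBAI k (Real.sqrt η / 2) (by positivity)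
  obtain ⟨n, hn⟩ : ∃ n : ℕ, n = dg k := ⟨_, rfl⟩
  have hn0 : 0 < n := by rw [hn]; exact dg_pos
  obtain ⟨s0, hs0⟩ : ∃ s0 : ℝ, s0 = Real.sqrt η ^ n := ⟨_, rfl⟩
  have hs0p : 0 < s0 := by rw [hs0]; positivity
  obtain ⟨M0, hM0⟩ : ∃ M0 : ℝ, M0 = 1 + ∑ c : ClassGroup (𝓞 k), nm (ci c) := ⟨_, rfl⟩
  have hnmc : ∀ c : ClassGroup (𝓞 k), 1 ≤ nm (ci c) := fun c => (hLIX k (cr c) (cr c)).2.2.1
  have hM01 : 1 ≤ M0 := by
    have : 0 ≤ ∑ c : ClassGroup (𝓞 k), nm (ci c) :=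
      Finset.sum_nonneg fun c _ => by linarith [hnmc c]
    linarith
  have hcM : ∀ c : ClassGroup (𝓞 k), nm (ci c) ≤ M0 := by
    intro c
    have := Finset.single_le_sum (f := fun c : ClassGroup (𝓞 k) => nm (ci c))
      (fun c _ => by linarith [hnmc c]) (Finset.mem_univ c)
    linarith
  obtain ⟨H, hH⟩ : ∃ H : ℝ, H = (Fintype.card (ClassGroup (𝓞 k)) : ℝ) := ⟨_, rfl⟩
  have hHp : 0 < H := by
    rw [hH]
    exact_mod_cast Fintype.card_pos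
  obtain ⟨T, hT⟩ : ∃ T : ℝ, T = (2 : ℝ) ^ (3 * (dg k : ℝ) / 2 - 1) := ⟨_, rfl⟩
  have hTp : 0 < T := by rw [hT]; exact Real.rpow_pos_of_pos (by norm_num) _
  obtain ⟨sK, hsK⟩ : ∃ sK : ℝ, sK = M0 + (1 + 1 / η) ^ n := ⟨_, rfl⟩
  have hsKp : 0 < sK := by
    have : 0 < (1 + 1 / η) ^ n := by positivity
    rw [hsK]
    linarith
  have hdk := dk_pos (k := k)
  refine ⟨T * H * M0 ^ 2 * C1 * sK ^ j1 / Real.sqrt s0,
    π * n * (s0 / dk k) ^ (1 / (n : ℝ)), 3 + (n + 2) * j1, by positivity, by positivity, ?_⟩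
  intro A f h R β D Y hY hD hR
  have hY0 : 0 < Y := by linarith
  have hDpos : ∀ v, 0 < D v := fun v => (mul_pos hη hY0).trans_le (hD v).1
  obtain ⟨y, hy⟩ : ∃ y : Pl k → ℝ, y = fun v => Real.sqrt (D v) / 2 := ⟨_, rfl⟩
  have hyη : ∀ v, Real.sqrt η / 2 ≤ y v := by
    intro v
    have h1 : Real.sqrt η ≤ Real.sqrt (D v) := by
      refine Real.sqrt_le_sqrt (le_trans ?_ (hD v).1)
      nlinarith
    rw [hy]
    show Real.sqrt η / 2 ≤ Real.sqrt (D v) / 2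
    linarith
  have hyp : ∀ v, 0 < y v := fun v => (by positivity : 0 < Real.sqrt η / 2).trans_le (hyη v)
  have hnmA : 1 ≤ nm (A : Ideal (𝓞 k)) := (hLIX k A A).2.2.1
  have hnmf : 1 ≤ nm (f : Ideal (𝓞 k)) := (hLIX k f f).2.2.1
  have hnmh : 1 ≤ nm (h : Ideal (𝓞 k)) := (hLIX k h h).2.2.1
  obtain ⟨X, hX⟩ : ∃ X : ℝ, X = nm (A : Ideal (𝓞 k)) + nm (f : Ideal (𝓞 k)) + Y := ⟨_, rfl⟩
  have hX1 : 1 ≤ X := by linarith
  have hX0 : 0 ≤ X := by linarith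
  have hYX : Y ≤ X := by linarith
  -- the identity
  obtain ⟨B, hBdef⟩ : ∃ B : (Ideal (𝓞 k))⁰, B = A * f := ⟨_, rfl⟩
  have hBc : (B : Ideal (𝓞 k)) = (A : Ideal (𝓞 k)) * (f : Ideal (𝓞 k)) := by rw [hBdef]; rfl
  rw [← hBc] at hR
  obtain ⟨K, hK⟩ : ∃ K : ℝ, K = Real.sqrt (nm (f : Ideal (𝓞 k))) / Real.sqrt (sD D) := ⟨_, rfl⟩
  have hz : ∀ j : 𝓞 k, zf (A : Ideal (𝓞 k)) f (fun v => β v + ev j v) D =
      K * (T * ∑ c : ClassGroup (𝓞 k), Real.sqrt (ix (Lb (ci c) (B : Ideal (𝓞 k)))) *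
        Lam (Lb (ci c) (B : Ideal (𝓞 k))) (fun v => (β v + ev j v) / 2) y) := by
    intro j
    rw [(hZFE k A A f (fun v => β v + ev j v) D hDpos).2.2.2, ← hBc, ← hy, ← hK,
      hZTH k B _ _ hyp, ← hT]
  have hc := hCTE k A f D hDpos
  rw [← hBc, ← hy, ← hK, ← hT] at hc
  have hid : (1 / (R.card : ℝ)) * ∑ j ∈ R, zf (A : Ideal (𝓞 k)) f (fun v => β v + ev j v) D -
      ct (A : Ideal (𝓞 k)) f D = K * (T * ∑ c : ClassGroup (𝓞 k),
        Real.sqrt (ix (Lb (ci c) (B : Ideal (𝓞 k)))) *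
          ((1 / (R.card : ℝ)) * ∑ j ∈ R, Lam (Lb (ci c) (B : Ideal (𝓞 k)))
            (fun v => (β v + ev j v) / 2) y - L0 (ci c) (B : Ideal (𝓞 k)) y)) := by
    rw [← hc, Finset.sum_congr rfl fun j _ => hz j]
    have h1 : ∑ j ∈ R, K * (T * ∑ c : ClassGroup (𝓞 k),
        Real.sqrt (ix (Lb (ci c) (B : Ideal (𝓞 k)))) *
          Lam (Lb (ci c) (B : Ideal (𝓞 k))) (fun v => (β v + ev j v) / 2) y) =
        K * (T * ∑ c : ClassGroup (𝓞 k), Real.sqrt (ix (Lb (ci c) (B : Ideal (𝓞 k)))) *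
          ∑ j ∈ R, Lam (Lb (ci c) (B : Ideal (𝓞 k))) (fun v => (β v + ev j v) / 2) y) := by
      rw [← Finset.mul_sum, ← Finset.mul_sum, Finset.sum_comm]
      simp only [Finset.mul_sum]
    rw [h1]
    simp only [mul_sub, Finset.sum_sub_distrib, Finset.mul_sum]
    congr 1
    refine Finset.sum_congr rfl fun c _ => Finset.sum_congr rfl fun j _ => ?_
    ring
  -- the bounds
  have hBnm : nm (B : Ideal (𝓞 k)) = nm (A : Ideal (𝓞 k)) * nm (f : Ideal (𝓞 k)) := by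
    rw [hBc]
    unfold nm
    rw [map_mul]
    push_cast
    rfl
  have hBX : nm (B : Ideal (𝓞 k)) ≤ X ^ 2 := by
    rw [hBnm, sq]
    exact mul_le_mul (by linarith) (by linarith) (by linarith) hX0
  have hB1 : 1 ≤ nm (B : Ideal (𝓞 k)) := (hLIX k B B).2.2.1
  have hsD := sd_ge D η Y hη hY fun v => (hD v).1
  have hYn : 1 ≤ Y ^ ((dg k : ℝ) / 2) := Real.one_le_rpow hY (by positivity)
  have hs0D : s0 ≤ sD D := by
    refine le_trans ?_ hsD
    rw [← hn, ← hs0]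
    rw [← hn] at hYn
    have := mul_le_mul_of_nonneg_left hYn hs0p.le
    rwa [mul_one] at this
  have hKb : K ≤ X / Real.sqrt s0 := by
    rw [hK]
    refine div_le_div₀ hX0 ?_ (Real.sqrt_pos.mpr hs0p) (Real.sqrt_le_sqrt hs0D)
    exact (sqrt_le73 _ hnmf).trans (by linarith)
  have hpy := prod_y_le D η Y X hη hY hYX fun v => ⟨(hDpos v).le, (hD v).2⟩
  have hee : EE (k := k) (∏ v, (2 * y v)) (nm (h : Ideal (𝓞 k))) ≤
      Real.exp (-(π * n * (s0 / dk k) ^ (1 / (n : ℝ)) *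
        (Y ^ ((n : ℝ) / 2) / nm (h : Ideal (𝓞 k))) ^ (1 / (n : ℝ)))) := by
    have h1 : s0 * Y ^ ((n : ℝ) / 2) ≤ ∏ v, (2 * y v) := by
      rw [hs0, hn]
      refine hsD.trans (le_of_eq ?_)
      rw [sd_eq D fun v => (hDpos v).le]
      refine Finset.prod_congr rfl fun v _ => ?_
      rw [hy]
      show Real.sqrt (D v) = 2 * (Real.sqrt (D v) / 2)
      ring
    have h2 := ee_le (k := k) _ s0 (Y ^ ((n : ℝ) / 2)) (nm (h : Ideal (𝓞 k))) (by linarith)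
      hs0p.le (by positivity) h1
    rw [← hn] at h2
    exact h2
  rw [← hn] at hpy
  rw [← hy] at hpy
  rw [← hn]
  obtain ⟨e, he⟩ : ∃ e : ℝ, e = Real.exp (-(π * n * (s0 / dk k) ^ (1 / (n : ℝ)) *
        (Y ^ ((n : ℝ) / 2) / nm (h : Ideal (𝓞 k))) ^ (1 / (n : ℝ)))) := ⟨_, rfl⟩
  rw [← he] at hee ⊢
  have he0 : 0 ≤ e := by rw [he]; exact (Real.exp_pos _).le
  rw [← hX]
  have hbase : ∀ c : ClassGroup (𝓞 k), nm (ci c) * nm (B : Ideal (𝓞 k)) + ∏ v, y v ≤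
      sK * X ^ (n + 2) := by
    intro c
    have h1 : nm (ci c) * nm (B : Ideal (𝓞 k)) ≤ M0 * X ^ (n + 2) := by
      refine mul_le_mul (hcM c) (hBX.trans (pow_le_pow_right₀ hX1 (by omega))) (by linarith)
        (by linarith)
    have h2 : ∏ v, y v ≤ (1 + 1 / η) ^ n * X ^ (n + 2) := by
      refine hpy.trans ?_
      rw [mul_pow]
      exact mul_le_mul_of_nonneg_left (pow_le_pow_right₀ hX1 (by omega)) (by positivity)
    calc nm (ci c) * nm (B : Ideal (𝓞 k)) + ∏ v, y v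
        ≤ M0 * X ^ (n + 2) + (1 + 1 / η) ^ n * X ^ (n + 2) := add_le_add h1 h2
      _ = sK * X ^ (n + 2) := by rw [hsK]; ring
  have hbase0 : ∀ c : ClassGroup (𝓞 k), 0 ≤ nm (ci c) * nm (B : Ideal (𝓞 k)) + ∏ v, y v := by
    intro c
    have h1 : 0 ≤ ∏ v, y v := Finset.prod_nonneg fun v _ => (hyp v).le
    have h2 : 0 ≤ nm (ci c) * nm (B : Ideal (𝓞 k)) :=
      mul_nonneg (by linarith [hnmc c]) (by linarith)
    linarith
  have hix : ∀ c : ClassGroup (𝓞 k), Real.sqrt (ix (Lb (ci c) (B : Ideal (𝓞 k)))) ≤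
      M0 ^ 2 * X ^ 2 := by
    intro c
    exact ix_le73 _ _ _ M0 X (hLIX k (cr c) B).1 (hnmc c) hB1 (hcM c) hBX
  have hK0 : 0 ≤ K := by rw [hK]; positivity
  rw [hid, abs_mul, abs_of_nonneg hK0, abs_mul, abs_of_pos hTp]
  have hterm : ∀ c : ClassGroup (𝓞 k), |Real.sqrt (ix (Lb (ci c) (B : Ideal (𝓞 k)))) *
          ((1 / (R.card : ℝ)) * ∑ j ∈ R, Lam (Lb (ci c) (B : Ideal (𝓞 k)))
            (fun v => (β v + ev j v) / 2) y - L0 (ci c) (B : Ideal (𝓞 k)) y)| ≤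
      (M0 ^ 2 * X ^ 2) * (C1 * (sK * X ^ (n + 2)) ^ j1 * e) := by
    intro c
    rw [abs_mul, abs_of_nonneg (Real.sqrt_nonneg _)]
    refine mul_le_mul (hix c) ?_ (abs_nonneg _) (by positivity)
    refine (hB (cr c) B h R β y hyη hR).trans ?_
    refine mul_le_mul (mul_le_mul_of_nonneg_left
      (pow_le_pow_left₀ (hbase0 c) (hbase c) j1) hC1.le) hee (Real.exp_pos _).le (by positivity)
  have hsum : |∑ c : ClassGroup (𝓞 k), Real.sqrt (ix (Lb (ci c) (B : Ideal (𝓞 k)))) *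
          ((1 / (R.card : ℝ)) * ∑ j ∈ R, Lam (Lb (ci c) (B : Ideal (𝓞 k)))
            (fun v => (β v + ev j v) / 2) y - L0 (ci c) (B : Ideal (𝓞 k)) y)| ≤
      H * ((M0 ^ 2 * X ^ 2) * (C1 * (sK * X ^ (n + 2)) ^ j1 * e)) := by
    refine (Finset.abs_sum_le_sum_abs _ _).trans ((Finset.sum_le_sum fun c _ => hterm c).trans ?_)
    rw [Finset.sum_const, Finset.card_univ, nsmul_eq_mul, hH]
  calc K * (T * |∑ c : ClassGroup (𝓞 k), Real.sqrt (ix (Lb (ci c) (B : Ideal (𝓞 k)))) *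
          ((1 / (R.card : ℝ)) * ∑ j ∈ R, Lam (Lb (ci c) (B : Ideal (𝓞 k)))
            (fun v => (β v + ev j v) / 2) y - L0 (ci c) (B : Ideal (𝓞 k)) y)|)
      ≤ K * (T * (H * ((M0 ^ 2 * X ^ 2) * (C1 * (sK * X ^ (n + 2)) ^ j1 * e)))) := by gcongr
    _ ≤ _ := bav_num n j1 K sK T H M0 C1 X (Real.sqrt s0) e (M0 ^ 2 * X ^ 2) (sK * X ^ (n + 2))
        hX1 (Real.sqrt_pos.mpr hs0p) hKb hTp.le hHp.le hC1.le he0
        (by positivity) le_rfl (by positivity) le_rfl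

end Pool.Agent.H73.NVE_BAV
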